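import Pool.Agent.MP_305420_co.Mg.AncMain
import Pool.Agent.MP_305420_co.Mg.HGlob
import Pool.Agent.MP_305420_co.Mg.LLMain

namespace Pool.Agent.Results.MP_305420_co.MinMax

open Pool.Agent.CSG

universe u

/-- Min-max formula for covering a crossing supermodular function by the edges of a graph. -/
theorem result {V : Type u} [Fintype V] [DecidableEq V] (p : Finset V → ℤ)
    (hp : CrossingSupermodular p) (h0 : p ∅ = 0) (h1 : p Finset.univ = 0) :
    ∃ α β : ℕ, IsGreatest (subpartitionValues p) (α : ℤ) ∧ IsGreatest (starValues p) β ∧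
      IsLeast {n : ℕ | ∃ G : Multiset (Sym2 V), (∀ e ∈ G, ¬ e.IsDiag) ∧
        Multiset.card G = n ∧ Covers G p} (max ((α + 1) / 2) β) :=
  min_max_of_K2 (k2_of_parts (fun _ _ _ => anchorThm) (fun _ _ _ => hLocal)
    (fun _ _ _ => hGlobal) (fun _ _ _ => llThm) V) p hp h0 h1

end Pool.Agent.Results.MP_305420_co.MinMax
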